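import Mathlib
import Pool.Agent.R572.CA.LowerS
import Pool.Agent.R572.CA.Pump
import Pool.Agent.R572.CA.RealtimeLin
import Pool.Agent.R572.CA.Reg
import Pool.Agent.R572.CA.Weak
import Pool.Agent.R572.CA.ExUnary
import Pool.Agent.R572.CA.ExBinary2
import Pool.Agent.R572.CA.Assembly

/-!
# Tight space bounds for alternating one-counter automata
-/

namespace Pool.Agent.Results.MP_9ec89f_lc.TightSpace

open Agent.R572.CA

/-- The twelve tight bounds (for both modes, realtime and one-way, and the unary alphabet `Unit`
and the binary alphabet `Bool`). -/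
theorem result (μ : Mode) :
    TightBound μ Unit .weak (fun n => Real.log (n : ℝ)) ∧
    TightBound μ Bool .weak (fun n => Real.log (n : ℝ)) ∧
    TightBound μ Unit .middle (fun n => (n : ℝ)) ∧
    TightBound μ Bool .middle (fun n => Real.log (n : ℝ)) ∧
    TightBound μ Unit .strong (fun n => (n : ℝ)) ∧
    TightBound μ Bool .strong (fun n => (n : ℝ)) :=
  stmAssembly (stmStrong_of stmPump stmReg) (stmUnary_of stmPump stmReg) stmWeak stmRealtime
    stmExUnary stmExBinary μ

end Pool.Agent.Results.MP_9ec89f_lc.TightSpace
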